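import Pool.Agent.UnivKoszul.Neg3

open MvPolynomial Pool.Agent.UnivKoszul

namespace Pool.Agent.Results.MP_49092c_al.NotLinearProduct

universe u

/-- For every field `K`, the algebra `R = K[X_0, X_1, X_2, X_3]/(X_0^2, X_1^2)` is universally
Koszul, the ideals `I₁ = (X_2, X_3)` and `I₂ = (X_2 - X_0, X_3 - X_1)` of `R` are generated by
elements of degree one, their product is not zero, and the regularity of `I₁ I₂` over `R` is
greater than two. -/
theorem result (K : Type u) [Field K] :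
    let J : Ideal (MvPolynomial (Fin 4) K) := Ideal.span {X 0 ^ 2, X 1 ^ 2}
    let q : MvPolynomial (Fin 4) K →+* MvPolynomial (Fin 4) K ⧸ J := Ideal.Quotient.mk J
    let I₁ : Ideal (MvPolynomial (Fin 4) K ⧸ J) := Ideal.span {q (X 2), q (X 3)}
    let I₂ : Ideal (MvPolynomial (Fin 4) K ⧸ J) := Ideal.span {q (X 2 - X 0), q (X 3 - X 1)}
    IsUniversallyKoszul J ∧ IsLinearIdeal J I₁ ∧ IsLinearIdeal J I₂ ∧ I₁ * I₂ ≠ ⊥ ∧
      ¬ RegLE J (I₁ * I₂) 2 := by
  intro J q I₁ I₂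
  have hX : ∀ i : Fin 4, q (X i) ∈ piece J 1 := by
    intro i
    exact ⟨X i, isHomogeneous_X K i, rfl⟩
  have e2 : q (X 2 - X 0) = xx K 2 - xx K 0 := map_sub _ _ _
  have e3 : q (X 3 - X 1) = xx K 3 - xx K 1 := map_sub _ _ _
  have hI₂ : I₂ = Ideal.span {xx K 2 - xx K 0, xx K 3 - xx K 1} := by
    show Ideal.span {q (X 2 - X 0), q (X 3 - X 1)} = _
    rw [e2, e3]
    rfl
  have hprod : I₁ * I₂ = Ideal.span (Set.range (ff K)) := by
    rw [hI₂]
    exact prod_eq K
  refine ⟨universally_koszul K, ⟨_, ?_, rfl⟩, ⟨_, ?_, rfl⟩, ?_, ?_⟩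
  · rintro r (rfl | rfl)
    · exact hX 2
    · exact hX 3
  · rintro r (rfl | rfl)
    · rw [map_sub]
      exact Submodule.sub_mem _ (hX 2) (hX 0)
    · rw [map_sub]
      exact Submodule.sub_mem _ (hX 3) (hX 1)
  · rw [hI₂]
    exact prod_ne_bot K
  · rw [hprod]
    exact not_reg K

end Pool.Agent.Results.MP_49092c_al.NotLinearProduct
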